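import Pool.Agent.H1.CA.TarP
import Pool.Agent.H68.SF.LBas

/-! MP_ceca85_lc, row CE: computations with the codes. -/

set_option linter.unusedVariables false

open Ordinal Order Set
open scoped ZFSet

namespace CAA

open SF

namespace H8CE

theorem mem_As {κ t X H b i : V} :
    i ∈ As κ t X H b ↔ i ∈ κ ∧ Ac t X H i ∧ b ⊆ fst (app t i) := by
  unfold As
  rw [ZFSet.mem_sep]

theorem mem_aS {κ t X H b z : V} :
    z ∈ aS κ t X H b ↔ z ∈ X ∧ IsPr z ∧ fst z ∈ As κ t X H b := by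
  unfold aS
  rw [ZFSet.mem_sep]

theorem nS_ne {m n : ℕ} (h : m ≠ n) {x y : V} : ZFSet.pair (nS m) x ≠ ZFSet.pair (nS n) y := by
  intro e
  exact h (nS_inj.1 (ZFSet.pair_inj.1 e).1)

theorem pair_ne_empty (x y : V) : ZFSet.pair x y ≠ ∅ := by
  intro e
  have : ({x} : V) ∈ ZFSet.pair x y := by simp [ZFSet.pair]
  rw [e] at this
  exact ZFSet.notMem_empty _ this

/-- inversion of activity -/
theorem ac_iff {t X H i : V} : Ac t X H i ↔ snd (app t i) = ∅ ∨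
    (∃ j q, snd (app t i) = ZFSet.pair (nS 1) (ZFSet.pair j q) ∧ j ∈ i ∧
      fst (app t i) ∈ fst (app t j) ∧ Ac t X H j ∧ ZFSet.pair j q ∈ X) ∨
    ∃ p, snd (app t i) = ZFSet.pair (nS 2) p ∧ p ∈ H := by
  constructor
  · intro h
    cases h with
    | z _ h => exact Or.inl h
    | s _ j q h1 h2 h3 h4 h5 => exact Or.inr (Or.inl ⟨j, q, h1, h2, h3, h4, h5⟩)
    | h _ p h1 h2 => exact Or.inr (Or.inr ⟨p, h1, h2⟩)
  · rintro (h | ⟨j, q, h1, h2, h3, h4, h5⟩ | ⟨p, h1, h2⟩)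
    · exact Ac.z i h
    · exact Ac.s i j q h1 h2 h3 h4 h5
    · exact Ac.h i p h1 h2

theorem ac_h {t X H i p : V} (h : snd (app t i) = ZFSet.pair (nS 2) p) :
    Ac t X H i ↔ p ∈ H := by
  rw [ac_iff]
  constructor
  · rintro (h1 | ⟨j, q, h1, -⟩ | ⟨p', h1, h2⟩)
    · rw [h] at h1
      exact absurd h1 (pair_ne_empty _ _)
    · rw [h] at h1
      exact absurd h1 (nS_ne (by norm_num))
    · rw [h] at h1
      rw [(ZFSet.pair_inj.1 h1).2]
      exact h2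
  · intro h1
    exact Or.inr (Or.inr ⟨p, h, h1⟩)

theorem ac_s {t X H i z : V} (h : snd (app t i) = ZFSet.pair (nS 1) z) (ha : Ac t X H i) :
    ∃ j q, z = ZFSet.pair j q ∧ j ∈ i ∧ fst (app t i) ∈ fst (app t j) ∧ Ac t X H j ∧
      ZFSet.pair j q ∈ X := by
  rw [ac_iff] at ha
  rcases ha with h1 | ⟨j, q, h1, h2, h3, h4, h5⟩ | ⟨p', h1, h2⟩
  · rw [h] at h1
    exact absurd h1 (pair_ne_empty _ _)
  · rw [h] at h1
    exact ⟨j, q, (ZFSet.pair_inj.1 h1).2, h2, h3, h4, h5⟩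
  · rw [h] at h1
    exact absurd h1 (nS_ne (by norm_num))

theorem m_app {M : V → Prop} (k : ZFm M) {f x : V} (hf : M f) (hx : M x) : M (app f x) :=
  (Tm.app (f := fun _ v => v 0) (g := fun _ v => v 1) (Tm.var 0) (Tm.var 1)).1 M k
    (cons f fun _ => x) fun i => by
      cases i with
      | zero => exact hf
      | succ n => exact hx

theorem m_nS {M : V → Prop} (k : ZFm M) (n : ℕ) : M (nS n) :=
  (Tm.nS n).1 M k (fun _ => ∅) fun _ => k.mempty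

theorem la_mono {A : V} {α β : Ordinal.{0}} (h : α ≤ β) : LA A α ⊆ LA A β := Lh_mono h

/-- five arguments -/
def v5 (a b c d e : V) : ℕ → V := cons a (cons b (cons c (cons d fun _ => e)))

theorem in5 {M : V → Prop} {a b c d e : V} (ha : M a) (hb : M b) (hc : M c) (hd : M d)
    (he : M e) : In M (v5 a b c d e) := by
  refine In.cons (In.cons (In.cons (In.cons (fun _ => he) hd) hc) hb) ha

section ok

variable {D : Dat} (hD : D.Ok)

include hD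

theorem lev {i : Ordinal.{0}} (hi : i < D.κ) : ∃ b : Ordinal.{0}, b ≤ i ∧
    fst (app D.tf i.toZFSet) = b.toZFSet := by
  obtain ⟨b, hb, y, hy, h⟩ := hD.tA i hi
  exact ⟨b, hb, by rw [h, fst_pair]⟩

theorem tfM : D.M D.tf := la_mono (le_of_lt hD.grd.χθ) hD.tM

theorem κM : D.M D.κ.toZFSet :=
  (hD.grd.ord _).2 (lt_trans hD.grd.κχ hD.grd.χθ)

end ok

end H8CE

open H8CE

theorem pf_CE (hPC : T_PC) (hPF : T_PF) (hPG : T_PG) (hFI : SF.T_FI) : T_CE := by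
  intro D hD G hG
  obtain ⟨hpo, hcM, hrM, -⟩ := hPF D hD
  obtain ⟨-, hF, hX, -, -, -⟩ := hPG D hD G hG
  obtain ⟨hE, hME, hGE⟩ := hFI D.M D.c D.r G hD.grd.zfc.toZFm hcM hrM hpo hG
  obtain ⟨-, -, -, -, -, -, hXs, hHs, -, -, hAs, haS⟩ := hPC
  have zκ := hD.grd.zκ
  -- facts on `X`
  have hX1 : ∀ {z : V}, z ∈ D.X G → ∃ k < D.κ, ∃ q, z = ZFSet.pair k.toZFSet q ∧
      q ∈ LA ∅ D.κ := by
    intro z hz
    obtain ⟨k, hk, q, hq, rfl⟩ := (hX z).1 hz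
    obtain ⟨p, hp, rfl⟩ := ((hF k hk).1 q).1 hq
    have hpc : p ∈ D.c := hG.1.sub hp
    have hpl := ((hD.cA p).1 hpc).lk
    exact ⟨k, hk, _, rfl, m_app zκ hpl ((by
      have := ord_mem_Lh (a := ∅) (A := ∅) (by intro x hx; exact absurd hx (ZFSet.notMem_empty _)) hk
      exact this : k.toZFSet ∈ LA ∅ D.κ))⟩
  have ordκ : ∀ {k : Ordinal.{0}}, k < D.κ → k.toZFSet ∈ LA ∅ D.κ := by
    intro k hk
    exact ord_mem_Lh (a := ∅) (A := ∅) (by intro x hx; exact absurd hx (ZFSet.notMem_empty _)) hk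
  have hX0 : ∀ k < D.κ, ZFSet.pair k.toZFSet ∅ ∈ D.X G := by
    intro k hk
    exact (hX _).2 ⟨k, hk, ∅, (hF k hk).2.2.1, rfl⟩
  have memA : ∀ {β : Ordinal.{0}} {i : V}, i ∈ D.A G β ↔ i ∈ D.κ.toZFSet ∧
      Ac D.tf (D.X G) (D.H G) i ∧ β.toZFSet ⊆ fst (app D.tf i) := fun {β i} => mem_As
  have mema : ∀ {β : Ordinal.{0}} {z : V}, z ∈ D.a G β ↔ z ∈ D.X G ∧ IsPr z ∧
      fst z ∈ D.A G β := fun {β z} => mem_aS
  have sbs : ∀ {a b : Ordinal.{0}}, succ a ≤ b ↔ a < b := fun {a b} => succ_le_iff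
  refine ⟨?_, ?_, ?_, ?_, ?_, ?_⟩
  · -- (1)
    intro β hβ
    have e1 : Ext D.M G D.κ.toZFSet := hME _ (κM hD)
    have e2 : Ext D.M G D.tf := hME _ (tfM hD)
    have e3 : Ext D.M G (D.X G) :=
      hXs.1 _ hE (v5 D.κ.toZFSet G ∅ ∅ ∅) (in5 e1 hGE hE.mempty hE.mempty hE.mempty)
    have e4 : Ext D.M G (D.H G) :=
      hHs.1 _ hE (v5 D.κ.toZFSet D.c (D.X G) ∅ ∅) (in5 e1 (hME _ hcM) e3 hE.mempty hE.mempty)
    have e5 : Ext D.M G β.toZFSet := hME _ ((hD.grd.ord _).2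
      (lt_trans hβ (lt_trans hD.grd.κχ hD.grd.χθ)))
    exact ⟨hAs.1 _ hE (v5 D.κ.toZFSet D.tf (D.X G) (D.H G) β.toZFSet) (in5 e1 e2 e3 e4 e5),
      haS.1 _ hE (v5 D.κ.toZFSet D.tf (D.X G) (D.H G) β.toZFSet) (in5 e1 e2 e3 e4 e5)⟩
  · -- (2)
    intro β
    ext i
    rw [mem_dm]
    constructor
    · rintro ⟨y, hy⟩
      have := (mema.1 hy).2.2
      rwa [fst_pair] at this
    · intro hi
      refine ⟨∅, mema.2 ⟨?_, ⟨_, _, rfl⟩, by rwa [fst_pair]⟩⟩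
      obtain ⟨k, hk, rfl⟩ := Ordinal.mem_toZFSet_iff.1 (memA.1 hi).1
      exact hX0 k hk
  · -- (3)
    intro β hβ
    ext p
    rw [ZFSet.mem_sep]
    constructor
    · intro hp
      have hpc : p ∈ D.c := by
        have h1 : p ∈ Hs D.κ.toZFSet D.c (D.X G) := hp
        unfold Hs at h1
        exact (ZFSet.mem_sep.1 h1).1
      refine ⟨hpc, ?_⟩
      have hpl := ((hD.cA p).1 hpc).lk
      obtain ⟨i, -, hi, he⟩ := hD.tB 0 (lt_of_le_of_lt bot_le hβ) β hβ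
        (ZFSet.pair (nS 2) p) (zκ.mpair (m_nS zκ 2) hpl)
      refine ⟨i.toZFSet, memA.2 ⟨Ordinal.toZFSet_mem_toZFSet_iff.2 hi, ?_, ?_⟩, ?_⟩
      · exact Ac.h _ p (by rw [he, snd_pair]) hp
      · rw [he, fst_pair]
      · rw [he, snd_pair]
    · rintro ⟨hpc, i, hi, he⟩
      exact (ac_h he).1 (memA.1 hi).2.1
  · -- (4)
    intro α β hαβ
    ext z
    rw [ZFSet.mem_sep, mema, mema, memA, memA]
    constructor
    · rintro ⟨h1, h2, h3, h4, h5⟩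
      exact ⟨⟨h1, h2, h3, h4, fun x hx => h5 (Ordinal.toZFSet_subset_toZFSet_iff.2 hαβ hx)⟩, h5⟩
    · rintro ⟨⟨h1, h2, h3, h4, h5⟩, h6⟩
      exact ⟨h1, h2, h3, h4, h6⟩
  · -- (5)
    intro β hβ
    ext z
    rw [ZFSet.mem_sep]
    constructor
    · intro hz
      obtain ⟨hzX, hzp, hzA⟩ := mema.1 hz
      obtain ⟨k, hk, q, rfl, hq⟩ := hX1 hzX
      rw [fst_pair] at hzA ⊢
      obtain ⟨hA1, hA2, hA3⟩ := memA.1 hzA
      obtain ⟨b, hbk, hb⟩ := lev hD hk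
      rw [hb] at hA3 ⊢
      have hβb : β < b := sbs.1 (Ordinal.toZFSet_subset_toZFSet_iff.1 hA3)
      have hzl : ZFSet.pair k.toZFSet q ∈ LA ∅ D.κ := zκ.mpair (ordκ hk) hq
      refine ⟨ZFSet.mem_prod.2 ⟨_, hA1, _, hq, rfl⟩, memA.2 ⟨hA1, hA2, ?_⟩,
        Ordinal.toZFSet_mem_toZFSet_iff.2 hβb, ?_⟩
      · rw [hb]
        exact Ordinal.toZFSet_subset_toZFSet_iff.2 hβb.le
      have hsk : succ k < D.κ := by
        have hl : k.toZFSet ∈ LA ∅ D.κ := ordκ hk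
        have h1 : (∀ x, x ∈ LA ∅ D.κ → insert x x ∈ LA ∅ D.κ) := by
          intro x hx
          exact (Tm.ins (f := fun _ v => v 0) (g := fun _ v => v 0) (Tm.var 0) (Tm.var 0)).1 _ zκ
            (fun _ => x) fun _ => hx
        have h2 := h1 _ hl
        rw [← Ordinal.toZFSet_add_one] at h2
        have h3 := (hD.grd.vk _).1 h2
        have h4 := h3.2
        rw [Ordinal.rank_toZFSet] at h4
        exact h4
      obtain ⟨i, hki, hi, he⟩ := hD.tB (succ k) hsk β hβ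
        (ZFSet.pair (nS 1) (ZFSet.pair k.toZFSet q)) (zκ.mpair (m_nS zκ 1) hzl)
      refine ⟨i.toZFSet, memA.2 ⟨Ordinal.toZFSet_mem_toZFSet_iff.2 hi, ?_, ?_⟩,
        Ordinal.toZFSet_mem_toZFSet_iff.2 (lt_of_lt_of_le (lt_succ k) hki), he⟩
      · refine Ac.s _ k.toZFSet q (by rw [he, snd_pair])
          (Ordinal.toZFSet_mem_toZFSet_iff.2 (lt_of_lt_of_le (lt_succ k) hki)) ?_ hA2 hzX
        rw [he, fst_pair, hb]
        exact Ordinal.toZFSet_mem_toZFSet_iff.2 hβb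
      · rw [he, fst_pair]
    · rintro ⟨hzp, hzA, hzb, i, hiA, -, he⟩
      obtain ⟨hi1, hi2, hi3⟩ := memA.1 hiA
      obtain ⟨j, q, rfl, hji, hlev, hac, hjX⟩ := ac_s (by rw [he, snd_pair]) hi2
      rw [fst_pair] at hzA hzb
      obtain ⟨hA1, hA2, hA3⟩ := memA.1 hzA
      refine mema.2 ⟨hjX, ⟨_, _, rfl⟩, ?_⟩
      rw [fst_pair]
      refine memA.2 ⟨hA1, hA2, ?_⟩
      obtain ⟨k, hk, rfl⟩ := Ordinal.mem_toZFSet_iff.1 hA1
      obtain ⟨b, hbk, hb⟩ := lev hD hk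
      rw [hb] at hzb ⊢
      exact Ordinal.toZFSet_subset_toZFSet_iff.2
        (sbs.2 (Ordinal.toZFSet_mem_toZFSet_iff.1 hzb))
  · -- (6)
    intro β hβ
    ext i
    rw [ZFSet.mem_sep]
    constructor
    · intro hi
      obtain ⟨h1, h2, h3⟩ := memA.1 hi
      refine ⟨h1, ?_⟩
      obtain ⟨k, hk, rfl⟩ := Ordinal.mem_toZFSet_iff.1 h1
      obtain ⟨b, hbk, hb⟩ := lev hD hk
      rw [hb] at h3 ⊢
      have hβb : β ≤ b := Ordinal.toZFSet_subset_toZFSet_iff.1 h3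
      rcases hβb.lt_or_eq with hlt | heq
      · left
        refine ⟨Ordinal.toZFSet_mem_toZFSet_iff.2 hlt, memA.2 ⟨h1, h2, ?_⟩⟩
        rw [hb]
        exact Ordinal.toZFSet_subset_toZFSet_iff.2 (sbs.2 hlt)
      · right
        refine ⟨by rw [heq], ?_⟩
        rcases ac_iff.1 h2 with h | ⟨j, q, e1, e2, e3, e4, e5⟩ | ⟨p, e1, e2⟩
        · exact Or.inl h
        · right; left
          rw [hb, ← heq] at e3
          refine ⟨j, e2, q, e1, e3, mema.2 ⟨e5, ⟨_, _, rfl⟩, ?_⟩⟩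
          rw [fst_pair]
          obtain ⟨j', hj', rfl⟩ := Ordinal.mem_toZFSet_iff.1 e2
          obtain ⟨b', hbk', hb'⟩ := lev hD (lt_trans hj' hk)
          rw [hb'] at e3
          refine memA.2 ⟨Ordinal.toZFSet_mem_toZFSet_iff.2 (lt_trans hj' hk), e4, ?_⟩
          rw [hb']
          exact Ordinal.toZFSet_subset_toZFSet_iff.2
            (sbs.2 (Ordinal.toZFSet_mem_toZFSet_iff.1 e3))
        · right; right
          exact ⟨p, e2, e1⟩
    · rintro ⟨h1, h2⟩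
      obtain ⟨k, hk, rfl⟩ := Ordinal.mem_toZFSet_iff.1 h1
      rcases h2 with ⟨h2, h3⟩ | ⟨h2, h3⟩
      · obtain ⟨-, h4, h5⟩ := memA.1 h3
        refine memA.2 ⟨h1, h4, ?_⟩
        exact fun x hx => h5 (Ordinal.toZFSet_subset_toZFSet_iff.2 (le_succ β) hx)
      · refine memA.2 ⟨h1, ?_, by rw [h2]⟩
        rcases h3 with h | ⟨j, e2, q, e1, e3, e5⟩ | ⟨p, e2, e1⟩
        · exact Ac.z _ h
        · obtain ⟨hX', -, hA'⟩ := mema.1 e5
          rw [fst_pair] at hA'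
          exact Ac.s _ j q e1 e2 (by rw [h2]; exact e3) (memA.1 hA').2.1 hX'
        · exact Ac.h _ p e1 e2

end CAA
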