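import Pool.Agent.H8.CA.CE

/-! MP_ceca85_lc, row ME: `a_α` is computable from `a_β` and the quotient filter. -/

set_option linter.unusedVariables false

open Ordinal Order Set
open scoped ZFSet

namespace CAA

open SF H8CE

theorem pf_ME (hPB : T_PB) (hPC : T_PC) (hPF : T_PF) (hPG : T_PG) (hCA : T_CA) : T_ME := by
  obtain ⟨-, -, -, -, -, -, hXs, -, -, -, -, haS⟩ := hPC
  refine ⟨fun κ t H a S g al => aS κ t (a ∪ Xs S g) H al, ?_, ?_⟩
  · have hX' : Tm ZFm (fun _ v => v 3 ∪ Xs (v 4) (v 5)) :=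
      Tm.union (Tm.var 3) (Tm.at2 (F := fun _ x y => Xs x y) hXs (Tm.var 4) (Tm.var 5))
    have := haS.comp (args [fun _ v => v 0, fun _ v => v 1, fun _ v => v 3 ∪ Xs (v 4) (v 5),
      fun _ v => v 2, fun _ v => v 6]) (tm_args _ (by
        intro a ha
        simp only [List.mem_cons, List.not_mem_nil, or_false] at ha
        rcases ha with rfl | rfl | rfl | rfl | rfl
        · exact Tm.var 0
        · exact Tm.var 1
        · exact hX'
        · exact Tm.var 2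
        · exact Tm.var 6))
    exact this
  · intro D hD G hG α β hαβ hβ S hS hSl
    obtain ⟨-, -, -, -, hcd, -⟩ := hPF D hD
    obtain ⟨-, hF, hX, -, -, -⟩ := hPG D hD G hG
    have hval : ∀ {k : V} {p : V}, k ∈ D.κ.toZFSet → p ∈ G →
        ZFSet.pair k (app p k) ∈ D.X G := by
      intro k p hk hp
      obtain ⟨k', hk', rfl⟩ := Ordinal.mem_toZFSet_iff.1 hk
      exact (hX _).2 ⟨k', hk', _, ((hF k' hk').1 _).2 ⟨p, hp, rfl⟩, rfl⟩
    have hrst : ∀ {k : V} {p : V}, k ∈ S → p ∈ G → app (rst S p) k = app p k := by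
      intro k p hk hp
      exact ((hPB.1 p S (hcd p (hG.1.sub hp)).1).2 k).1 hk
    -- `X' ⊆ X`
    have hsub : ∀ z ∈ D.a G β ∪ Xs S (Qs S G), z ∈ D.X G := by
      intro z hz
      rcases ZFSet.mem_union.1 hz with hz | hz
      · exact (mem_aS.1 hz).1
      · unfold Xs at hz
        obtain ⟨w, hw, rfl⟩ := mem_imS.1 hz
        obtain ⟨k, hk, r, hr, rfl⟩ := ZFSet.mem_prod.1 hw
        rw [fst_pair, snd_pair]
        unfold Qs at hr
        obtain ⟨p, hp, rfl⟩ := mem_imS.1 hr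
        rw [hrst hk hp]
        exact hval (hS hk) hp
    have key : ∀ j ∈ D.κ.toZFSet, Ac D.tf (D.X G) (D.H G) j → α.toZFSet ⊆ fst (app D.tf j) →
        ∀ q, (ZFSet.pair j q ∈ D.X G ↔ ZFSet.pair j q ∈ D.a G β ∪ Xs S (Qs S G)) := by
      intro j hj hac hlev q
      refine ⟨fun h => ?_, fun h => hsub _ h⟩
      obtain ⟨k, hk, rfl⟩ := Ordinal.mem_toZFSet_iff.1 hj
      obtain ⟨b, hbk, hb⟩ := lev hD hk
      rcases lt_or_ge b β with hbβ | hbβ
      · have hkS : k.toZFSet ∈ S := hSl k hk hlev (by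
          rw [hb]
          exact Ordinal.toZFSet_mem_toZFSet_iff.2 hbβ)
        obtain ⟨k', hk', q', hq', e⟩ := (hX _).1 h
        obtain ⟨e1, rfl⟩ := ZFSet.pair_inj.1 e
        have e2 : k = k' := Ordinal.toZFSet_injective e1
        subst e2
        obtain ⟨p, hp, rfl⟩ := ((hF k hk).1 _).1 hq'
        refine ZFSet.mem_union.2 (Or.inr ?_)
        unfold Xs
        refine mem_imS.2 ⟨ZFSet.pair k.toZFSet (rst S p), ZFSet.mem_prod.2 ⟨_, hkS, _, ?_, rfl⟩, ?_⟩
        · unfold Qs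
          exact mem_imS.2 ⟨p, hp, rfl⟩
        · rw [fst_pair, snd_pair, hrst hkS hp]
      · refine ZFSet.mem_union.2 (Or.inl (mem_aS.2 ⟨h, ⟨_, _, rfl⟩, ?_⟩))
        rw [fst_pair]
        refine mem_As.2 ⟨hj, hac, ?_⟩
        rw [hb]
        exact Ordinal.toZFSet_subset_toZFSet_iff.2 hbβ
    have hord : ∀ i ∈ D.κ.toZFSet, IsOrd (fst (app D.tf i)) := by
      intro i hi
      obtain ⟨k, hk, rfl⟩ := Ordinal.mem_toZFSet_iff.1 hi
      obtain ⟨b, -, hb⟩ := lev hD hk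
      exact ⟨b, hb⟩
    obtain ⟨-, h2⟩ := hCA D.κ.toZFSet D.tf (D.X G) (D.a G β ∪ Xs S (Qs S G)) (D.H G) α.toZFSet
      ⟨_, rfl⟩ hord ⟨_, rfl⟩ (by
        intro j hj hac hα q
        refine key j hj hac ?_ q
        obtain ⟨b, hb⟩ := hord j hj
        rw [hb] at hα ⊢
        exact Ordinal.toZFSet_subset_toZFSet_iff.2 (Ordinal.toZFSet_mem_toZFSet_iff.1 hα).le)
    exact (h2 (fun j hj q => key j (mem_As.1 hj).1 (mem_As.1 hj).2.1 (mem_As.1 hj).2.2 q)).symm

end CAA
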