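import Pool.Agent.H37.CA.Targets

/-!
# Fixed points modulo `q`
-/

set_option autoImplicit false

open NumberField

namespace Pool.Agent.H8.CA

open Pool.Agent.H37.CA Pool.Agent.H37.CV

section
variable {F : Type} [Field F] [NumberField F]

theorem smul_qi (q : ℕ) (σ : F ≃ₐ[ℚ] F) (a : 𝓞 F) (h : a ∈ qi F q) : σ • a ∈ qi F q := by
  rw [qi, Ideal.mem_span_singleton] at h ⊢
  obtain ⟨b, rfl⟩ := h
  refine ⟨σ • b, ?_⟩
  rw [smul_mul']
  congr 1
  apply RingOfIntegers.coe_injective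
  rw [algebraMap.smul']
  simp

theorem pow_smul_qi (q : ℕ) (σ : F ≃ₐ[ℚ] F) (x : 𝓞 F) (h : σ • x - x ∈ qi F q) (i : ℕ) :
    σ ^ i • x - x ∈ qi F q := by
  induction i with
  | zero => simp
  | succ i ih =>
    have e : σ ^ (i + 1) • x - x = σ • (σ ^ i • x - x) + (σ • x - x) := by
      rw [pow_succ', mul_smul, smul_sub]; ring
    rw [e]
    exact Ideal.add_mem _ (smul_qi q σ _ ih) h

/-- the trace down to the fixed field -/
theorem tr_fix (σ : F ≃ₐ[ℚ] F) (x : 𝓞 F) :
    σ • (∑ i ∈ Finset.range (orderOf σ), σ ^ i • x) = ∑ i ∈ Finset.range (orderOf σ), σ ^ i • x := by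
  rw [Finset.smul_sum]
  have e : ∀ i, σ • σ ^ i • x = σ ^ (i + 1) • x := fun i => by rw [pow_succ', mul_smul]
  simp_rw [e]
  have h1 := Finset.sum_range_succ (fun i => σ ^ i • x) (orderOf σ)
  have h2 := Finset.sum_range_succ' (fun i => σ ^ i • x) (orderOf σ)
  rw [h2] at h1
  simpa [pow_orderOf_eq_one] using h1

end

theorem pf_FXP : T_FXP := by
  intro F _ _ _ q hq hd σ hσ
  classical
  have hk0 : 0 < orderOf σ := orderOf_pos σ
  have hk1 : orderOf σ ≠ 1 := fun h => hσ (orderOf_eq_one_iff.mp h)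
  have hk2 : 2 ≤ orderOf σ := by omega
  let E := IntermediateField.fixedField (Subgroup.zpowers σ)
  have hEF : Module.finrank E F = orderOf σ := by
    rw [IntermediateField.finrank_fixedField_eq_card]
    exact Nat.card_zpowers σ
  have hmul : Module.finrank ℚ E * Module.finrank E F = Module.finrank ℚ F :=
    Module.finrank_mul_finrank ℚ E F
  have hEpos : 0 < Module.finrank ℚ E := Module.finrank_pos
  have hkle : orderOf σ ≤ Module.finrank ℚ F := by
    rw [← hmul, hEF]; exact Nat.le_mul_of_pos_left _ hEpos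
  have hkq : ¬ q ∣ orderOf σ := fun h => by
    have := Nat.le_of_dvd hk0 h
    omega
  have hEd : 2 * Module.finrank ℚ E ≤ Module.finrank ℚ F := by
    rw [← hmul, hEF, mul_comm]; exact Nat.mul_le_mul_left _ hk2
  -- the image of the integers of `E`
  have hle : qi E q ≤ (qi F q).comap (algebraMap (𝓞 E) (𝓞 F)) := by
    rw [qi, Ideal.span_singleton_le_iff_mem, Ideal.mem_comap, map_natCast, qi]
    exact Ideal.mem_span_singleton_self _
  let g : 𝓞 E ⧸ qi E q →+* 𝓞 F ⧸ qi F q := Ideal.quotientMap (qi F q) (algebraMap (𝓞 E) (𝓞 F)) hle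
  have hq0 : q ≠ 0 := hq.ne_zero
  have hcard : Nat.card (𝓞 E ⧸ qi E q) = q ^ Module.finrank ℚ E := by
    have := Ideal.absNorm_span_natCast (S := 𝓞 E) q
    rw [RingOfIntegers.rank] at this
    rw [← this, qi]
    rfl
  have hfin : Finite (𝓞 E ⧸ qi E q) := Nat.finite_of_card_ne_zero (by rw [hcard]; positivity)
  have hT : (Set.range g).ncard ≤ q ^ Module.finrank ℚ E := by
    rw [← Set.image_univ, ← hcard, ← Set.ncard_univ]
    exact Set.ncard_image_le (Set.toFinite _)
  -- multiplication by the order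
  have hinj : Function.Injective fun y : 𝓞 F ⧸ qi F q => ((orderOf σ : ℕ) : 𝓞 F ⧸ qi F q) * y := by
    have hc : Nat.Coprime (orderOf σ) q := ((Nat.Prime.coprime_iff_not_dvd hq).mpr hkq).symm
    obtain ⟨a, b, hab⟩ : ∃ a b : ℤ, a * (orderOf σ : ℤ) + b * (q : ℤ) = 1 := by
      have h := Nat.isCoprime_iff_coprime.mpr hc
      exact h
    have hq' : ((q : ℕ) : 𝓞 F ⧸ qi F q) = 0 := by
      rw [← map_natCast (Ideal.Quotient.mk (qi F q)), Ideal.Quotient.eq_zero_iff_mem, qi]
      exact Ideal.mem_span_singleton_self _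
    have h1 : (a : 𝓞 F ⧸ qi F q) * ((orderOf σ : ℕ) : 𝓞 F ⧸ qi F q) = 1 := by
      have := congrArg (Int.cast (R := 𝓞 F ⧸ qi F q)) hab
      push_cast at this
      rw [hq', mul_zero, add_zero] at this
      exact this
    intro y y' h
    have h' := congrArg (fun t => (a : 𝓞 F ⧸ qi F q) * t) h
    simp only [← mul_assoc, h1, one_mul] at h'
    exact h'
  have hS : ∀ y ∈ {y : 𝓞 F ⧸ qi F q | ∃ x : 𝓞 F, Ideal.Quotient.mk (qi F q) x = y ∧
      σ • x - x ∈ qi F q}, ((orderOf σ : ℕ) : 𝓞 F ⧸ qi F q) * y ∈ Set.range g := by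
    rintro y ⟨x, rfl, hx⟩
    set w := ∑ i ∈ Finset.range (orderOf σ), σ ^ i • x with hw
    have hwf : σ • w = w := tr_fix σ x
    have hwE : (w : F) ∈ E := by
      rw [IntermediateField.mem_fixedField_iff]
      intro f hf
      obtain ⟨n, hn⟩ := Subgroup.mem_zpowers_iff.mp hf
      have h1 : ∀ τ ∈ Subgroup.zpowers σ, τ • w = w := by
        intro τ hτ
        have : τ ∈ MulAction.stabilizer (F ≃ₐ[ℚ] F) w :=
          (Subgroup.zpowers_le.mpr (MulAction.mem_stabilizer_iff.mpr hwf)) hτ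
        exact MulAction.mem_stabilizer_iff.mp this
      have h2 := h1 f hf
      have h3 := congrArg (fun t : 𝓞 F => (t : F)) h2
      simp only [algebraMap.smul'] at h3
      exact h3
    have hwi : IsIntegral ℤ (⟨(w : F), hwE⟩ : E) := by
      have h1 : IsIntegral ℤ (w : F) := RingOfIntegers.isIntegral_coe w
      exact (isIntegral_algebraMap_iff (algebraMap E F).injective).mp h1
    refine ⟨Ideal.Quotient.mk _ ⟨⟨(w : F), hwE⟩, hwi⟩, ?_⟩
    have e1 : g (Ideal.Quotient.mk _ ⟨⟨(w : F), hwE⟩, hwi⟩) = Ideal.Quotient.mk (qi F q) w := by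
      simp only [g, Ideal.quotientMap_mk]
      rfl
    rw [e1, ← map_natCast (Ideal.Quotient.mk (qi F q)), ← map_mul, Ideal.Quotient.eq]
    have e2 : w - (orderOf σ : 𝓞 F) * x = ∑ i ∈ Finset.range (orderOf σ), (σ ^ i • x - x) := by
      rw [Finset.sum_sub_distrib, Finset.sum_const, Finset.card_range, nsmul_eq_mul]
    rw [e2]
    exact Ideal.sum_mem _ fun i _ => pow_smul_qi q σ x hx i
  have hfr : (Set.range g).Finite := Set.finite_range g
  have hle2 : {y : 𝓞 F ⧸ qi F q | ∃ x : 𝓞 F, Ideal.Quotient.mk (qi F q) x = y ∧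
      σ • x - x ∈ qi F q}.ncard ≤ (Set.range g).ncard :=
    Set.ncard_le_ncard_of_injOn _ hS (fun a _ b _ h => hinj h) hfr
  calc _ ≤ (q ^ Module.finrank ℚ E) ^ 2 := Nat.pow_le_pow_left (hle2.trans hT) 2
    _ = q ^ (2 * Module.finrank ℚ E) := by rw [← pow_mul, mul_comm]
    _ ≤ q ^ Module.finrank ℚ F := Nat.pow_le_pow_right hq.pos hEd

end Pool.Agent.H8.CA
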